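import Pool.Agent.Helper86.TK.Defs

namespace Pool.Agent.Helper86.TK

open Set Filter Topology

noncomputable section

def fc0_D {Γ : Type} (r : Γ → ℕ → Bool) (η : Γ → ℝ) (t : T) : XX r η := ⟨Dl Γ t, Dl_mem r η t⟩

theorem fc0_fst {Γ : Type} (r : Γ → ℕ → Bool) (η : Γ → ℝ) (F : Finset T) (s : T → ℝ) :
    ((∑ t ∈ F, s t • fc0_D r η t : XX r η) : Amb Γ).1 = 0 := by
  classical
  induction F using Finset.induction_on with
  | empty => simp
  | insert a F ha ih =>
    rw [Finset.sum_insert ha]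
    simp only [Submodule.coe_add, Submodule.coe_smul, Prod.fst_add, Prod.smul_fst, ih]
    simp [fc0_D, Dl]

theorem fc0_snd {Γ : Type} (r : Γ → ℕ → Bool) (η : Γ → ℝ) (F : Finset T) (s : T → ℝ) (u : T) :
    ((∑ t ∈ F, s t • fc0_D r η t : XX r η) : Amb Γ).2 u = F.sum (fun t => if t = u then s t else 0) := by
  classical
  induction F using Finset.induction_on with
  | empty => simp
  | insert a F ha ih =>
    rw [Finset.sum_insert ha, Finset.sum_insert ha]
    simp only [Submodule.coe_add, Submodule.coe_smul, Prod.snd_add, Prod.smul_snd, lp.coeFn_add,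
      Pi.add_apply, ih]
    congr 1
    simp only [fc0_D, Dl, lp.coeFn_smul, Pi.smul_apply, smul_eq_mul]
    rw [lp.single_apply]
    by_cases h : a = u
    · subst h
      simp
    · rw [if_neg h]
      simp [Ne.symm h]

theorem fc0_norm {Γ : Type} (r : Γ → ℕ → Bool) (η : Γ → ℝ) (p : XX r η) (C : ℝ) (hC : 0 ≤ C)
    (h1 : p.1.1 = 0) (h2 : ∀ t, |p.1.2 t| ≤ C) : ‖p‖ ≤ C := by
  have h3 : ‖p‖ = ‖(p : Amb Γ)‖ := rfl
  rw [h3, Prod.norm_def, h1, norm_zero]
  apply max_le hC
  exact lp.norm_le_of_forall_le hC (fun t => by rw [Real.norm_eq_abs]; exact h2 t)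

theorem fc0_abs {Γ : Type} (r : Γ → ℕ → Bool) (η : Γ → ℝ) (φ : StrongDual ℝ (XX r η))
    (F : Finset T) : ∑ t ∈ F, |φ (fc0_D r η t)| ≤ ‖φ‖ := by
  classical
  let s : T → ℝ := fun t => if 0 ≤ φ (fc0_D r η t) then 1 else -1
  have hs : ∀ t, |s t| ≤ 1 := by
    intro t
    simp only [s]
    split_ifs <;> simp
  have h1 : ∑ t ∈ F, |φ (fc0_D r η t)| = φ (∑ t ∈ F, s t • fc0_D r η t) := by
    rw [map_sum]
    apply Finset.sum_congr rfl
    intro t _
    rw [map_smul, smul_eq_mul]
    simp only [s]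
    split_ifs with h
    · rw [abs_of_nonneg h, one_mul]
    · rw [abs_of_neg (not_le.1 h)]; ring
  have h2 : ‖∑ t ∈ F, s t • fc0_D r η t‖ ≤ 1 := by
    apply fc0_norm r η _ 1 zero_le_one (fc0_fst r η F s)
    intro u
    rw [fc0_snd, Finset.sum_ite_eq']
    split_ifs
    · exact hs u
    · simp
  rw [h1]
  calc φ (∑ t ∈ F, s t • fc0_D r η t) ≤ ‖φ (∑ t ∈ F, s t • fc0_D r η t)‖ := Real.le_norm_self _
    _ ≤ ‖φ‖ * ‖∑ t ∈ F, s t • fc0_D r η t‖ := φ.le_opNorm _
    _ ≤ ‖φ‖ * 1 := mul_le_mul_of_nonneg_left h2 φ.opNorm_nonneg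
    _ = ‖φ‖ := mul_one _

theorem st_FC0 (h : ST_C0) : ST_FC0 := by
  classical
  intro Γ r η hpar φ ε hε
  have hw : Summable (fun t => |φ (fc0_D r η t)|) :=
    summable_of_sum_le (fun t => abs_nonneg _) (fun F => fc0_abs r η φ F)
  obtain ⟨F, hF⟩ := summable_iff_vanishing_norm.1 hw (ε / 24) (by positivity)
  have hN : 0 ≤ ‖φ‖ := φ.opNorm_nonneg
  refine ⟨F, ε / (4 * (‖φ‖ + 1)), by positivity, ?_⟩
  intro p hp1 hp6 hpF
  have hnull : Null (fun t => p.1.2 t) := by
    have := h Γ r η hpar ∅ ∅ (fun _ => 0) (fun _ => 0) (Set.disjoint_empty _)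
      (fun x hx => (Set.notMem_empty x hx).elim) (fun x hx => (Set.notMem_empty x hx).elim)
      p.1 p.2 (fun x _ => by rw [hp1]; rfl)
    refine this.congr ?_
    intro t
    simp [SS, S]
  have hmain : ∀ ε' > 0, |φ p| ≤ ‖φ‖ * ε' + ε / 2 := by
    intro ε' hε'
    have hfin : {t | ¬ |p.1.2 t| ≤ ε'}.Finite := by
      have := (Metric.tendsto_nhds.1 hnull) ε' hε'
      rw [Filter.eventually_cofinite] at this
      apply this.subset
      intro t ht hh
      apply ht
      rw [Real.dist_eq, sub_zero] at hh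
      exact hh.le
    let F' : Finset T := hfin.toFinset ∪ F
    have hq : ‖p - ∑ t ∈ F', p.1.2 t • fc0_D r η t‖ ≤ ε' := by
      apply fc0_norm r η _ ε' hε'.le
      · rw [Submodule.coe_sub, Prod.fst_sub, hp1, fc0_fst r η F' (fun t => p.1.2 t), sub_zero]
      · intro u
        rw [Submodule.coe_sub, Prod.snd_sub, lp.coeFn_sub, Pi.sub_apply,
          fc0_snd r η F' (fun t => p.1.2 t), Finset.sum_ite_eq']
        split_ifs with hu
        · simp [hε'.le]
        · rw [sub_zero]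
          by_contra hcon
          apply hu
          simp only [F', Finset.mem_union, Set.Finite.mem_toFinset, Set.mem_ofPred_eq]
          exact Or.inl hcon
    have h1 : φ p = φ (p - ∑ t ∈ F', p.1.2 t • fc0_D r η t) +
        ∑ t ∈ F', p.1.2 t * φ (fc0_D r η t) := by
      have : ∑ t ∈ F', p.1.2 t * φ (fc0_D r η t) = φ (∑ t ∈ F', p.1.2 t • fc0_D r η t) := by
        rw [map_sum]
        apply Finset.sum_congr rfl
        intro t _
        rw [map_smul, smul_eq_mul]
      rw [this, ← map_add, sub_add_cancel]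
    have h2 : |φ (p - ∑ t ∈ F', p.1.2 t • fc0_D r η t)| ≤ ‖φ‖ * ε' := by
      rw [← Real.norm_eq_abs]
      exact (φ.le_opNorm _).trans (mul_le_mul_of_nonneg_left hq hN)
    have h3 : |∑ t ∈ F', p.1.2 t * φ (fc0_D r η t)| ≤ ε / 2 := by
      have hsplit : F' = F ∪ (F' \ F) := by
        ext t
        simp only [F', Finset.mem_union, Finset.mem_sdiff]
        tauto
      calc |∑ t ∈ F', p.1.2 t * φ (fc0_D r η t)| ≤ ∑ t ∈ F', |p.1.2 t * φ (fc0_D r η t)| :=
            Finset.abs_sum_le_sum_abs _ _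
        _ = ∑ t ∈ F', |p.1.2 t| * |φ (fc0_D r η t)| := by
            apply Finset.sum_congr rfl
            intro t _
            rw [abs_mul]
        _ = ∑ t ∈ F, |p.1.2 t| * |φ (fc0_D r η t)| +
            ∑ t ∈ F' \ F, |p.1.2 t| * |φ (fc0_D r η t)| := by
            rw [← Finset.sum_union Finset.disjoint_sdiff, ← hsplit]
        _ ≤ ∑ t ∈ F, (ε / (4 * (‖φ‖ + 1))) * |φ (fc0_D r η t)| +
            ∑ t ∈ F' \ F, 6 * |φ (fc0_D r η t)| := by
            apply add_le_add
            · exact Finset.sum_le_sum (fun t ht =>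
                mul_le_mul_of_nonneg_right (hpF t ht) (abs_nonneg _))
            · exact Finset.sum_le_sum (fun t _ =>
                mul_le_mul_of_nonneg_right (hp6 t) (abs_nonneg _))
        _ = (ε / (4 * (‖φ‖ + 1))) * ∑ t ∈ F, |φ (fc0_D r η t)| +
            6 * ∑ t ∈ F' \ F, |φ (fc0_D r η t)| := by
            rw [Finset.mul_sum, Finset.mul_sum]
        _ ≤ (ε / (4 * (‖φ‖ + 1))) * (‖φ‖ + 1) + 6 * (ε / 24) := by
            apply add_le_add
            · apply mul_le_mul_of_nonneg_left _ (by positivity)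
              exact (fc0_abs r η φ F).trans (by linarith)
            · apply mul_le_mul_of_nonneg_left _ (by norm_num)
              have := hF (F' \ F) Finset.sdiff_disjoint
              rw [Real.norm_eq_abs] at this
              exact (le_abs_self _).trans this.le
        _ = ε / 2 := by
            field_simp
            ring
    rw [h1]
    calc |φ (p - ∑ t ∈ F', p.1.2 t • fc0_D r η t) + ∑ t ∈ F', p.1.2 t * φ (fc0_D r η t)|
        ≤ |φ (p - ∑ t ∈ F', p.1.2 t • fc0_D r η t)| + |∑ t ∈ F', p.1.2 t * φ (fc0_D r η t)| :=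
          abs_add_le _ _
      _ ≤ _ := add_le_add h2 h3
  have := hmain (ε / (2 * (‖φ‖ + 1))) (by positivity)
  have h4 : ‖φ‖ * (ε / (2 * (‖φ‖ + 1))) ≤ ε / 2 := by
    rw [mul_div_assoc', div_le_div_iff₀ (by positivity) (by norm_num)]
    nlinarith
  linarith

end

end Pool.Agent.Helper86.TK
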