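import Pool.Agent.Helper86.TK.Defs

namespace Pool.Agent.Helper86.TK

open Set Filter Topology

theorem st_NREFL : ST_NREFL := by
  intro Y _ _ hsurj R
  unfold WCpt
  have hcl : closure (toWeakSpace ℝ Y '' Metric.closedBall (0 : Y) R) =
      toWeakSpace ℝ Y '' Metric.closedBall (0 : Y) R := by
    rw [← (convex_closedBall (0 : Y) R).toWeakSpace_closure ℝ, Metric.isClosed_closedBall.closure_eq]
  rw [← hcl]
  apply NormedSpace.isCompact_closure_of_isBounded
  · have : (toWeakSpace ℝ Y) ⁻¹' (toWeakSpace ℝ Y '' Metric.closedBall (0 : Y) R) =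
        Metric.closedBall (0 : Y) R :=
      Set.preimage_image_eq _ (toWeakSpace ℝ Y).injective
    rw [this]
    exact Metric.isBounded_closedBall
  · have hr : Set.range (NormedSpace.inclusionInDoubleDualWeak ℝ Y) = Set.univ := by
      rw [Set.range_eq_univ]
      intro z
      obtain ⟨y, hy⟩ := hsurj (StrongDual.toWeakDual.symm z)
      refine ⟨toWeakSpace ℝ Y y, ?_⟩
      have : NormedSpace.inclusionInDoubleDualWeak ℝ Y (toWeakSpace ℝ Y y) =
        StrongDual.toWeakDual (NormedSpace.inclusionInDoubleDual ℝ Y y) := rfl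
      rw [this, hy]
      simp
    rw [hr]
    exact Set.subset_univ _

end Pool.Agent.Helper86.TK
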