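import Pool.Agent.Helper86.TK.Defs

namespace Pool.Agent.Helper86.TK

open Set Filter Topology Cardinal

theorem st_PIG (h : ST_COF) : ST_PIG := by
  classical
  intro n A J hA hJ H hH
  obtain ⟨D, hD, hDc, hDcof⟩ := h n A hA
  by_contra hcon
  push Not at hcon
  choose d hdD hd using fun j => hDcof (H j) (hH j)
  let f : J → D := fun j => ⟨d j, hdD j⟩
  have hf : ∀ b : D, #(f ⁻¹' {b}) ≤ ℵ₀ := by
    intro b
    have h1 : f ⁻¹' {b} ⊆ {j | H j ⊆ (b : Set A)} := by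
      intro j hj
      have h2 : f j = b := hj
      have h3 : d j = (b : Set A) := by rw [← h2]
      show H j ⊆ (b : Set A)
      rw [← h3]
      exact hd j
    have h2 : (f ⁻¹' {b}).Countable := (hcon (b : Set A) (hDc b b.2)).mono h1
    exact Cardinal.mk_le_aleph0_iff.2 h2.to_subtype
  have h1 : #J ≤ #D * ℵ₀ := Cardinal.mk_le_mk_mul_of_mk_preimage_le f hf
  have h2 : #D * ℵ₀ ≤ ℵ_ (n : Ordinal) * ℵ_ (n : Ordinal) :=
    mul_le_mul' hD (Cardinal.aleph0_le_aleph _)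
  rw [Cardinal.mul_eq_self (Cardinal.aleph0_le_aleph _)] at h2
  have h3 : ℵ_ ((n + 1 : ℕ) : Ordinal) ≤ ℵ_ (n : Ordinal) := hJ ▸ (h1.trans h2)
  rw [Cardinal.aleph_le_aleph] at h3
  have h4 : (n + 1 : ℕ) ≤ n := by exact_mod_cast h3
  omega

end Pool.Agent.Helper86.TK
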