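import Pool.Agent.Helper86.TK.Defs

namespace Pool.Agent.Helper86.TK

open Set Filter Topology

theorem sep_nd_eq {x y : ℕ → Bool} {n : ℕ} (h : nd x n = nd y n) {k : ℕ} (hk : k < n) :
    x k = y k := by
  unfold nd at h
  have := congrArg (fun l : List Bool => l[k]?) h
  simpa [hk] using this

theorem sep_main {Γ : Type} (r : Γ → ℕ → Bool) {x y : Γ} {m n N : ℕ} (hN : r x N ≠ r y N)
    (hm : N < m) (t : T) : ind (r x) m t * ind (r y) n t = 0 := by
  classical
  unfold ind
  by_cases h1 : m ≤ t.length ∧ t = nd (r x) t.length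
  · by_cases h2 : n ≤ t.length ∧ t = nd (r y) t.length
    · exfalso
      have h3 : nd (r x) t.length = nd (r y) t.length := h1.2.symm.trans h2.2
      exact hN (sep_nd_eq h3 (lt_of_lt_of_le hm h1.1))
    · rw [if_neg h2, mul_zero]
  · rw [if_neg h1, zero_mul]

theorem st_SEP : ST_SEP := by
  classical
  intro Γ r hr G hG
  obtain ⟨i, hi⟩ := Set.countable_iff_exists_injOn.1 hG
  have hex : ∀ x y : Γ, ∃ N, x ≠ y → r x N ≠ r y N := by
    intro x y
    by_cases h : x = y
    · exact ⟨0, fun h' => (h' h).elim⟩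
    · have : r x ≠ r y := fun h' => h (hr h')
      obtain ⟨N, hN⟩ := Function.ne_iff.1 this
      exact ⟨N, fun _ => hN⟩
  choose N hN using hex
  have hfin : ∀ x : Γ, {y | y ∈ G ∧ i y < i x}.Finite := by
    intro x
    apply Set.Finite.of_finite_image (f := i)
    · apply (Set.finite_lt_nat (i x)).subset
      rintro _ ⟨y, hy, rfl⟩
      exact hy.2
    · exact hi.mono (fun y hy => hy.1)
  refine ⟨fun x => 1 + (hfin x).toFinset.sup (fun y => N x y), ?_⟩
  have key : ∀ x y : Γ, y ∈ G → i y < i x → N x y < 1 + (hfin x).toFinset.sup (fun y => N x y) := by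
    intro x y hy hxy
    have : N x y ≤ (hfin x).toFinset.sup (fun y => N x y) := by
      apply Finset.le_sup (f := fun y => N x y)
      simp [hy, hxy]
    omega
  intro x hx y hy hxy t
  have hne : i x ≠ i y := fun h => hxy (hi hx hy h)
  rcases lt_or_gt_of_ne hne with h | h
  · rw [mul_comm]
    exact sep_main r (hN y x (Ne.symm hxy)) (key y x hx h) t
  · exact sep_main r (hN x y hxy) (key x y hy h) t

end Pool.Agent.Helper86.TK
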